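import Pool.Agent.Lib.MP_12629d_ag.Defs

/-!
# MP_12629d_ag, module M4d: algebraically independent power series with prescribed 1-jets
-/

open PowerSeries

noncomputable section

namespace Nod

namespace M4

/-- Finitely many algebraically independent complex numbers. -/
theorem exists_algInd (n : Type) [Finite n] : ∃ v : n → ℂ, AlgebraicIndependent ℚ v := by
  obtain ⟨s, hs⟩ := exists_isTranscendenceBasis ℚ ℂ
  have hcard := IsAlgClosed.cardinal_eq_cardinal_transcendence_basis_of_aleph0_lt'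
    (K' := ℂ) (R := ℚ) ((↑) : s → ℂ) hs (Cardinal.mkRat.le) (by
      rw [Cardinal.mk_complex]; exact Cardinal.aleph0_lt_continuum)
  have hinf : Infinite s := by
    rw [← Cardinal.aleph0_le_mk_iff]
    calc Cardinal.aleph0 ≤ Cardinal.continuum := Cardinal.aleph0_le_continuum
      _ = Cardinal.mk ℂ := Cardinal.mk_complex.symm
      _ = Cardinal.mk s := hcard
      _ ≤ Cardinal.mk s := le_rfl
  obtain ⟨g⟩ : Nonempty (n ↪ s) := by
    rw [← Cardinal.le_def]
    exact ((Cardinal.lt_aleph0_of_finite n).le).trans (Cardinal.aleph0_le_mk s)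
  exact ⟨fun i => (g i : ℂ), hs.1.comp g g.injective⟩

/-- **M4d.** Power series with prescribed 1-jets which are algebraically independent over `ℚ`. -/
theorem exists_series {n : Type} [Finite n] (a b : n → ℂ) :
    ∃ p : n → ℂ⟦X⟧, (∀ i, (X : ℂ⟦X⟧) ^ 2 ∣ p i - C (a i) - X * C (b i)) ∧
      AlgebraicIndependent ℚ (fun i => algebraMap ℂ⟦X⟧ (FractionRing ℂ⟦X⟧) (p i)) := by
  obtain ⟨v, hv⟩ := exists_algInd n
  let P : n → Polynomial ℂ := fun i =>
    Polynomial.C (a i) + Polynomial.X * Polynomial.C (b i) +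
      Polynomial.X ^ 2 * Polynomial.C (v i - a i - b i)
  have hPe : ∀ i, (P i).eval 1 = v i := by
    intro i
    simp [P]
  let ev : Polynomial ℂ →ₐ[ℚ] ℂ := (Polynomial.evalRingHom (1:ℂ)).toRatAlgHom
  have hP : AlgebraicIndependent ℚ P := by
    refine AlgebraicIndependent.of_comp ev ?_
    have : (ev ∘ P) = v := by
      funext i
      exact hPe i
    rw [this]
    exact hv
  let g0 : Polynomial ℂ →+* FractionRing ℂ⟦X⟧ :=
    (algebraMap ℂ⟦X⟧ (FractionRing ℂ⟦X⟧)).comp Polynomial.coeToPowerSeries.ringHom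
  have hg0 : Function.Injective g0 := by
    intro x y hxy
    have h1 := (IsFractionRing.injective ℂ⟦X⟧ (FractionRing ℂ⟦X⟧)) hxy
    exact Polynomial.coe_injective ℂ h1
  let g : Polynomial ℂ →ₐ[ℚ] FractionRing ℂ⟦X⟧ := g0.toRatAlgHom
  refine ⟨fun i => ((P i : Polynomial ℂ) : ℂ⟦X⟧), fun i => ?_, ?_⟩
  · refine ⟨C (v i - a i - b i), ?_⟩
    simp only [P, Polynomial.coe_add, Polynomial.coe_mul, Polynomial.coe_C, Polynomial.coe_X,
      Polynomial.coe_pow]
    ring
  · exact hP.map' (f := g) hg0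

end M4

end Nod
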