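import Pool.Agent.Lib.MP_12629d_ag.Defs

/-!
# MP_12629d_ag, module M4a: specialisation of a finitely generated ring at generic points
-/

open TensorProduct

noncomputable section

namespace Nod

namespace M4

/-- A constructible set of the spectrum of a domain which contains the generic point contains a
basic open set. -/
theorem constructible_bot {A : Type*} [CommRing A] [IsDomain A] {s : Set (PrimeSpectrum A)}
    (hs : Topology.IsConstructible s) (h : (⊥ : PrimeSpectrum A) ∈ s) :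
    ∃ f : A, f ≠ 0 ∧ ∀ q : PrimeSpectrum A, f ∉ q.asIdeal → q ∈ s := by
  obtain ⟨S, rfl⟩ := PrimeSpectrum.exists_constructibleSetData_iff.mpr hs
  unfold PrimeSpectrum.ConstructibleSetData.toSet at h ⊢
  simp only [Set.mem_iUnion] at h ⊢
  obtain ⟨C, hC, h⟩ := h
  unfold PrimeSpectrum.BasicConstructibleSetData.toSet at h
  have hg : ∀ i, C.g i = 0 := by
    intro i
    have h1 := h.1
    rw [PrimeSpectrum.mem_zeroLocus] at h1
    have := h1 (Set.mem_range_self i)
    simpa using this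
  have hf : C.f ≠ 0 := by
    intro h0
    apply h.2
    rw [PrimeSpectrum.mem_zeroLocus]
    intro x hx
    rw [Set.mem_singleton_iff.1 hx, h0]
    simp
  refine ⟨C.f, hf, fun q hq => ⟨C, hC, ?_⟩⟩
  unfold PrimeSpectrum.BasicConstructibleSetData.toSet
  refine ⟨?_, ?_⟩
  · rw [PrimeSpectrum.mem_zeroLocus]
    rintro x ⟨i, rfl⟩
    rw [hg i]
    simp
  · rw [PrimeSpectrum.mem_zeroLocus]
    intro h0
    exact hq (h0 rfl)

/-- Extension of ring homomorphisms to `ℂ` through a prime of `B` over the kernel. -/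
theorem extend_hom {A B : Type} [CommRing A] [CommRing B] [Algebra A B]
    [Algebra.FiniteType A B] (e : A →+* ℂ)
    (h : (⟨RingHom.ker e, RingHom.ker_isPrime e⟩ : PrimeSpectrum A) ∈
      Set.range (PrimeSpectrum.comap (algebraMap A B))) :
    ∃ ψ : B →+* ℂ, ∀ a, ψ (algebraMap A B a) = e a := by
  have hP : (RingHom.ker e).IsPrime := RingHom.ker_isPrime e
  have hnt := (PrimeSpectrum.nontrivial_iff_mem_rangeComap _).2 h
  change Nontrivial ((RingHom.ker e).ResidueField ⊗[A] B) at hnt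
  let algA : Algebra A ℂ := e.toAlgebra
  let κ := (RingHom.ker e).ResidueField
  let l : κ →+* ℂ := Ideal.ResidueField.lift (RingHom.ker e) e le_rfl (by
    intro x hx
    have : e x ≠ 0 := fun h0 => hx h0
    exact isUnit_iff_ne_zero.2 this)
  let algκ : Algebra κ ℂ := l.toAlgebra
  have tow : IsScalarTower A κ ℂ := IsScalarTower.of_algebraMap_eq (by
    intro x
    exact (Ideal.ResidueField.lift_algebraMap (RingHom.ker e) e _ _ x).symm)
  have nt1 : Nontrivial (ℂ ⊗[κ] (κ ⊗[A] B)) := by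
    have : Module.FaithfullyFlat κ ℂ := inferInstance
    exact Module.FaithfullyFlat.lTensor_nontrivial κ ℂ (κ ⊗[A] B)
  let eqv := TensorProduct.AlgebraTensorModule.cancelBaseChange A κ κ ℂ B
  have nt2 : Nontrivial (ℂ ⊗[A] B) := eqv.symm.toEquiv.nontrivial
  obtain ⟨m, hm⟩ := Ideal.exists_maximal (ℂ ⊗[A] B)
  let : Field ((ℂ ⊗[A] B) ⧸ m) := Ideal.Quotient.field m
  have : Algebra.FiniteType ℂ (ℂ ⊗[A] B) := inferInstance
  have : Algebra.FiniteType ℂ ((ℂ ⊗[A] B) ⧸ m) := inferInstance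
  have : Module.Finite ℂ ((ℂ ⊗[A] B) ⧸ m) := finite_of_finite_type_of_isJacobsonRing _ _
  have hbij : Function.Bijective (algebraMap ℂ ((ℂ ⊗[A] B) ⧸ m)) :=
    IsAlgClosed.algebraMap_bijective_of_isIntegral
  let E : ℂ ≃+* ((ℂ ⊗[A] B) ⧸ m) := RingEquiv.ofBijective _ hbij
  refine ⟨(E.symm.toRingHom.comp (Ideal.Quotient.mk m)).comp
    (Algebra.TensorProduct.includeRight (R := A) (A := ℂ) (B := B)).toRingHom, fun a => ?_⟩
  have h1 : (Algebra.TensorProduct.includeRight (R := A) (A := ℂ) (B := B)) (algebraMap A B a)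
      = algebraMap ℂ (ℂ ⊗[A] B) (e a) := by
    rw [Algebra.TensorProduct.includeRight_apply, Algebra.TensorProduct.algebraMap_apply,
      Algebra.algebraMap_eq_smul_one a, TensorProduct.tmul_smul, TensorProduct.smul_tmul']
    congr 1
    rw [Algebra.smul_def, mul_one]
    rfl
  change E.symm (Ideal.Quotient.mk m ((Algebra.TensorProduct.includeRight (R := A) (A := ℂ)
    (B := B)) (algebraMap A B a))) = e a
  rw [h1, RingEquiv.symm_apply_eq]
  rfl

/-- **M4a.** Specialisation at generic points: a finite subset `T` of `K` and the algebraically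
independent `p` lie in a subring `B` which maps to `ℂ` with `p ↦ p'` and nonzero elements of `T`
mapped to nonzero elements, for all `p'` outside a hypersurface over `ℚ`. -/
theorem extend_generic {n K : Type} [Finite n] [Field K] [CharZero K] (p : n → K)
    (hp : AlgebraicIndependent ℚ p) (T : Finset K) :
    Generic fun p' : n → ℂ => ∃ (B : Subring K) (ψ : B →+* ℂ), (∀ x ∈ T, x ∈ B) ∧
      (∃ hpB : ∀ i, p i ∈ B, ∀ i, ψ ⟨p i, hpB i⟩ = p' i) ∧
      ∀ x (hx : x ∈ B), x ∈ T → x ≠ 0 → ψ ⟨x, hx⟩ ≠ 0 := by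
  classical
  let S : Set K := Set.range p ∪ ((T : Set K) ∪ ((fun x => x⁻¹) '' (T : Set K)))
  have hSfin : S.Finite := (Set.finite_range p).union (T.finite_toSet.union (T.finite_toSet.image _))
  let B : Subalgebra ℚ K := Algebra.adjoin ℚ S
  have hpB : ∀ i, p i ∈ B := fun i => Algebra.subset_adjoin (Or.inl ⟨i, rfl⟩)
  have hTB : ∀ x ∈ T, x ∈ B := fun x hx => Algebra.subset_adjoin (Or.inr (Or.inl hx))
  have hTB' : ∀ x ∈ T, x⁻¹ ∈ B := fun x hx => Algebra.subset_adjoin (Or.inr (Or.inr ⟨x, hx, rfl⟩))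
  let φ : MvPolynomial n ℚ →ₐ[ℚ] B := MvPolynomial.aeval fun i => (⟨p i, hpB i⟩ : B)
  have hφval : ∀ f, ((φ f : B) : K) = MvPolynomial.aeval p f := by
    intro f
    have : (B.val.comp φ) = MvPolynomial.aeval p := by
      ext i
      simp [φ]
    exact congrArg (fun g => g f) this
  have hφinj : Function.Injective φ := by
    intro f g hfg
    apply hp
    rw [← hφval, ← hφval, hfg]
  let algAB : Algebra (MvPolynomial n ℚ) B := φ.toRingHom.toAlgebra
  have tow : IsScalarTower ℚ (MvPolynomial n ℚ) B := IsScalarTower.of_algebraMap_eq (by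
    intro x
    change _ = φ _
    rw [AlgHom.commutes])
  have ft0 : Algebra.FiniteType ℚ B := by
    have : B.FG := ⟨hSfin.toFinset, by simp [B]⟩
    exact B.fg_iff_finiteType.1 this
  have ft : Algebra.FiniteType (MvPolynomial n ℚ) B :=
    Algebra.FiniteType.of_restrictScalars_finiteType ℚ (MvPolynomial n ℚ) B
  have fp : Algebra.FinitePresentation (MvPolynomial n ℚ) B :=
    Algebra.FinitePresentation.of_finiteType.1 ft
  have hcon := PrimeSpectrum.isConstructible_range_comap
    (f := algebraMap (MvPolynomial n ℚ) B) (RingHom.finitePresentation_algebraMap.2 fp)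
  have hbot : (⊥ : PrimeSpectrum (MvPolynomial n ℚ)) ∈
      Set.range (PrimeSpectrum.comap (algebraMap (MvPolynomial n ℚ) B)) := by
    refine ⟨⊥, ?_⟩
    ext f
    change algebraMap (MvPolynomial n ℚ) B f ∈ (⊥ : Ideal B) ↔ f ∈ (⊥ : Ideal _)
    rw [Ideal.mem_bot, Ideal.mem_bot]
    constructor
    · intro h0
      apply hφinj
      change φ f = φ 0
      rw [map_zero]
      exact h0
    · rintro rfl
      simp
  obtain ⟨H, hH0, hH⟩ := constructible_bot hcon hbot
  refine ⟨H, hH0, fun p' hp' => ?_⟩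
  let e : MvPolynomial n ℚ →+* ℂ := (MvPolynomial.aeval p' : MvPolynomial n ℚ →ₐ[ℚ] ℂ).toRingHom
  have hmem := hH ⟨RingHom.ker e, RingHom.ker_isPrime e⟩ (by
    intro h0
    exact hp' h0)
  obtain ⟨ψ, hψ⟩ := extend_hom e hmem
  refine ⟨B.toSubring, ψ, hTB, ⟨hpB, fun i => ?_⟩, fun x hx hxT hx0 h0 => ?_⟩
  · have := hψ (MvPolynomial.X i)
    have h2 : algebraMap (MvPolynomial n ℚ) B (MvPolynomial.X i) = ⟨p i, hpB i⟩ := by
      change φ _ = _
      simp [φ]
    rw [h2] at this
    rw [show (ψ : B.toSubring →+* ℂ) ⟨p i, hpB i⟩ = e (MvPolynomial.X i) from this]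
    simp [e]
  · have h1 : (⟨x, hx⟩ : B) * ⟨x⁻¹, hTB' x hxT⟩ = 1 := by
      apply Subtype.ext
      change x * x⁻¹ = 1
      exact mul_inv_cancel₀ hx0
    have h2 : ψ ((⟨x, hx⟩ : B) * ⟨x⁻¹, hTB' x hxT⟩) = 1 := by rw [h1, map_one]
    rw [map_mul, show ψ (⟨x, hx⟩ : B) = 0 from h0, zero_mul] at h2
    exact zero_ne_one h2

end M4

end Nod
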